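import Mathlib
import Pool.Agent.N251.GA.Leaves

/-!
# The signature `(2, 2, n)`
-/

set_option autoImplicit false

namespace Pool.Agent.N946.GA.G2

open Pool.Agent.N251.GA

theorem t : LeafG2 := by
  intro R _ D n N hn hN h
  have := isDomain D
  have := charZero D
  refine near D (2 * 3 * N) (by omega) ?_
  set m := Fintype.card D.ι with hm
  set K : ℝ := 2 ^ m + 2 ^ (2 * n) * 4 + n with hK
  have h2m : (1 : ℝ) ≤ 2 ^ m := one_le_pow₀ (by norm_num)
  have h2n : (1 : ℝ) ≤ 2 ^ (2 * n) := one_le_pow₀ (by norm_num)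
  have hnn : (0 : ℝ) ≤ n := Nat.cast_nonneg n
  refine transferTri D (2 * n) (2 * n - 1) K (by linarith) one_pos ?_ ?_ h
  · rw [Nat.cast_sub (by omega)]; push_cast; linarith
  rintro ⟨Z, Y, c⟩ ht hdvd
  obtain ⟨hab, hsum, ha, hb, hc⟩ := ht
  simp only at hab hsum ha hb hc hdvd
  set X : R := -c with hX
  have hXZ : X = Z + Y := by rw [hX]; linear_combination -hsum
  have hXY : IsCoprime X Y := by
    rw [hXZ]
    have := hab.add_mul_right_left 1
    rwa [one_mul] at this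
  have hX0 : X ≠ 0 := by rw [hX]; exact neg_ne_zero.2 hc
  have hcX : c = -X := by rw [hX]; ring
  -- local sizes
  have hloc : ∀ i, ht D (Z, Y, c) i ≤ 2 * max ‖D.σ i X‖ ‖D.σ i Y‖ := by
    intro i
    have h1 := le_max_left ‖D.σ i X‖ ‖D.σ i Y‖
    have h2 := le_max_right ‖D.σ i X‖ ‖D.σ i Y‖
    have h3 : 0 ≤ max ‖D.σ i X‖ ‖D.σ i Y‖ := (norm_nonneg _).trans h1
    have h4 : ‖D.σ i Z‖ ≤ ‖D.σ i X‖ + ‖D.σ i Y‖ := by
      have : Z = X - Y := by rw [hXZ]; ring
      rw [this, map_sub]; exact norm_sub_le _ _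
    have h5 : ‖D.σ i c‖ = ‖D.σ i X‖ := by rw [hX, map_neg, norm_neg]
    simp only [ht]
    rw [h5]
    refine max_le (max_le ?_ ?_) ?_ <;> linarith
  by_cases hexc : X ^ n = Y ^ n
  · -- all members are units
    left
    have h1 : IsUnit (X ^ n) := by
      have := hXY.pow (m := n) (n := n)
      rw [← hexc] at this
      exact isCoprime_self.1 this
    have h2 : IsUnit X := (isUnit_pow_iff (by omega)).1 h1
    have h3 : ∀ i, ht D (Z, Y, c) i ≤ 2 * ‖D.σ i X‖ := by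
      intro i
      have h4 : ‖D.σ i X‖ ^ n = ‖D.σ i Y‖ ^ n := by
        rw [← norm_pow, ← norm_pow, ← map_pow, ← map_pow, hexc]
      have h5 : ‖D.σ i X‖ = ‖D.σ i Y‖ :=
        (pow_left_inj₀ (norm_nonneg _) (norm_nonneg _) (by omega)).1 h4
      refine (hloc i).trans ?_
      rw [← h5, max_self]
    calc ∏ i, ht D (Z, Y, c) i ≤ ∏ i, (2 * ‖D.σ i X‖) :=
          Finset.prod_le_prod (fun i _ => ht_nonneg D _ i) fun i _ => h3 i
      _ = 2 ^ m * ∏ i, ‖D.σ i X‖ := by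
          rw [Finset.prod_mul_distrib, Finset.prod_const, Finset.card_univ]
      _ = 2 ^ m := by rw [norm_unit D h2, mul_one]
      _ ≤ K := by linarith
  · right
    obtain ⟨s, hs⟩ := hdvd
    push_cast at hs
    set G : R := ∑ i ∈ Finset.range n, X ^ i * Y ^ (n - 1 - i) with hG
    have hGZ : G * Z = X ^ n - Y ^ n := by
      have := (Commute.all X Y).geom_sum₂_mul n
      rw [hG, ← this, hXZ]; ring
    have hXn : X ^ n - Y ^ n ≠ 0 := sub_ne_zero.2 hexc
    have hG0 : G ≠ 0 := by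
      intro h0
      rw [h0, zero_mul] at hGZ
      exact hXn hGZ.symm
    obtain ⟨Q, hQ⟩ : ∃ Q : R, Q = 3 * N * s * G := ⟨_, rfl⟩
    have h2Q : 2 * Q = X ^ n - Y ^ n := by
      rw [← hGZ, hQ, hs]; ring
    have hGZ2 : G * Z = 2 * Q := by rw [h2Q, hGZ]
    have hQ0 : Q ≠ 0 := by
      intro h0
      rw [h0, mul_zero] at h2Q
      exact hXn h2Q.symm
    obtain ⟨P, hP⟩ : ∃ P : R, P = Y ^ n + Q := ⟨_, rfl⟩
    have hPQ1 : P + Q = X ^ n := by linear_combination hP + h2Q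
    have hPQ2 : P - Q = Y ^ n := by linear_combination hP
    have hid : P ^ 2 - Q ^ 2 = (X * Y) ^ n := by
      rw [mul_pow, ← hPQ1, ← hPQ2]; ring
    have hcop : IsCoprime (-Q ^ 2) (P ^ 2) := by
      rw [IsCoprime.neg_left_iff]
      apply isCoprime_of_max
      intro I hI h1 h2
      have h3 := hI.isPrime.mem_of_pow_mem _ h1
      have h4 := hI.isPrime.mem_of_pow_mem _ h2
      have h5 : X ^ n ∈ I := by rw [← hPQ1]; exact I.add_mem h4 h3
      have h6 : Y ^ n ∈ I := by rw [← hPQ2]; exact I.sub_mem h4 h3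
      exact not_both hXY hI (hI.isPrime.mem_of_pow_mem _ h5) (hI.isPrime.mem_of_pow_mem _ h6)
    have htri : Tri (-Q ^ 2, P ^ 2, -(X * Y) ^ n) :=
      tri_of D hcop (by rw [← hid]; ring) (neg_ne_zero.2 (pow_ne_zero _ hQ0)) (n := 3)
        (by norm_num) ⟨-(N * s * G) * Q, by rw [hQ]; push_cast; ring⟩
    have hP0 : P ≠ 0 := fun h0 => htri.2.2.2.1 (by simp only; rw [h0]; simp)
    have htri' : Tri (P ^ 2, -Q ^ 2, -(X * Y) ^ n) :=
      ⟨hcop.symm, by simp only; rw [← hid]; ring, htri.2.2.2.1, htri.2.2.1, htri.2.2.2.2⟩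
    have hXi : ∀ i, ‖D.σ i X‖ ≤ ht D (Z, Y, c) i := by
      intro i
      have h5 : ‖D.σ i c‖ = ‖D.σ i X‖ := by rw [hX, map_neg, norm_neg]
      rw [← h5]; exact ht_ge3 D (Z, Y, c) i
    have hYi : ∀ i, ‖D.σ i Y‖ ≤ ht D (Z, Y, c) i := fun i => ht_ge2 D (Z, Y, c) i
    refine ⟨(P ^ 2, -Q ^ 2, -(X * Y) ^ n), ⟨htri', ⟨⟨P, Q, X * Y, ?_, ?_, ?_⟩, ?_⟩⟩, ?_,
      G * P, mul_ne_zero hG0 hP0, ?_, n + 2, ?_⟩
    · simp only; push_cast; ring
    · simp only; push_cast; ring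
    · simp only; push_cast; ring
    · right; left
      exact ⟨-(3 * s * G) * Q, by simp only; rw [hQ]; ring⟩
    · intro i
      set M := max ‖D.σ i X‖ ‖D.σ i Y‖ with hM
      have hM0 : 0 ≤ M := (norm_nonneg _).trans (le_max_left _ _)
      set H := ht D (P ^ 2, -Q ^ 2, -(X * Y) ^ n) i with hH
      have hPH : ‖D.σ i P‖ ^ 2 ≤ H := by
        refine le_trans (le_of_eq ?_) (ht_ge1 D (P ^ 2, -Q ^ 2, -(X * Y) ^ n) i)
        simp only
        rw [map_pow, norm_pow]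
      have hQH : ‖D.σ i Q‖ ^ 2 ≤ H := by
        refine le_trans (le_of_eq ?_) (ht_ge2 D (P ^ 2, -Q ^ 2, -(X * Y) ^ n) i)
        simp only
        rw [map_neg, norm_neg, map_pow, norm_pow]
      have hXn1 : ‖D.σ i X‖ ^ n ≤ ‖D.σ i P‖ + ‖D.σ i Q‖ := by
        rw [← norm_pow, ← map_pow, ← hPQ1, map_add]; exact norm_add_le _ _
      have hYn1 : ‖D.σ i Y‖ ^ n ≤ ‖D.σ i P‖ + ‖D.σ i Q‖ := by
        rw [← norm_pow, ← map_pow, ← hPQ2, map_sub]; exact norm_sub_le _ _
      have hMn : M ^ n ≤ ‖D.σ i P‖ + ‖D.σ i Q‖ := by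
        rcases max_cases ‖D.σ i X‖ ‖D.σ i Y‖ with ⟨h2, -⟩ | ⟨h2, -⟩
        · rw [hM, h2]; exact hXn1
        · rw [hM, h2]; exact hYn1
      have hM2 : M ^ (2 * n) ≤ 4 * H := by
        have e1 : M ^ (2 * n) = (M ^ n) ^ 2 := by rw [← pow_mul]; congr 1; ring
        have e2 : (M ^ n) ^ 2 ≤ (‖D.σ i P‖ + ‖D.σ i Q‖) ^ 2 :=
          pow_le_pow_left₀ (pow_nonneg hM0 n) hMn 2
        rw [e1]
        nlinarith [sq_nonneg (‖D.σ i P‖ - ‖D.σ i Q‖)]
      have hH0 : 0 ≤ H := ht_nonneg D _ i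
      calc ht D (Z, Y, c) i ^ (2 * n) ≤ (2 * M) ^ (2 * n) :=
            pow_le_pow_left₀ (ht_nonneg D _ i) (hloc i) _
        _ = 2 ^ (2 * n) * M ^ (2 * n) := mul_pow _ _ _
        _ ≤ 2 ^ (2 * n) * (4 * H) := mul_le_mul_of_nonneg_left hM2 (by positivity)
        _ = 2 ^ (2 * n) * 4 * H := by ring
        _ ≤ _ := mul_le_mul_of_nonneg_right (by linarith) hH0
    · intro i
      set H := ht D (Z, Y, c) i with hH
      have hH0 : 0 ≤ H := ht_nonneg D _ i
      have hGi : ‖D.σ i G‖ ≤ n * H ^ (n - 1) := by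
        calc ‖D.σ i G‖ ≤ ∑ j ∈ Finset.range n, ‖D.σ i X‖ ^ j * ‖D.σ i Y‖ ^ (n - 1 - j) := by
              rw [hG, map_sum]
              refine (norm_sum_le _ _).trans (le_of_eq ?_)
              apply Finset.sum_congr rfl
              intro j _
              rw [map_mul, map_pow, map_pow, norm_mul, norm_pow, norm_pow]
          _ ≤ ∑ j ∈ Finset.range n, H ^ (n - 1) := by
              apply Finset.sum_le_sum
              intro j hj
              rw [Finset.mem_range] at hj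
              calc ‖D.σ i X‖ ^ j * ‖D.σ i Y‖ ^ (n - 1 - j)
                  ≤ H ^ j * H ^ (n - 1 - j) := by
                    have h1 := hXi i
                    have h2 := hYi i
                    gcongr
                _ = _ := by rw [← pow_add]; congr 1; omega
          _ = n * H ^ (n - 1) := by
              rw [Finset.sum_const, Finset.card_range, nsmul_eq_mul]
      have hPi : ‖D.σ i P‖ ≤ H ^ n := by
        have e1 : 2 * P = X ^ n + Y ^ n := by rw [← hPQ1, ← hPQ2]; ring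
        have e2 : 2 * ‖D.σ i P‖ ≤ ‖D.σ i X‖ ^ n + ‖D.σ i Y‖ ^ n := by
          have e3 : ‖D.σ i (2 * P)‖ = 2 * ‖D.σ i P‖ := by
            rw [map_mul, norm_mul, map_ofNat]; simp
          rw [← e3, e1, map_add, ← norm_pow, ← norm_pow, ← map_pow, ← map_pow]
          exact norm_add_le _ _
        have e4 : ‖D.σ i X‖ ^ n ≤ H ^ n := pow_le_pow_left₀ (norm_nonneg _) (hXi i) n
        have e5 : ‖D.σ i Y‖ ^ n ≤ H ^ n := pow_le_pow_left₀ (norm_nonneg _) (hYi i) n
        linarith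
      calc ‖D.σ i (G * P)‖ = ‖D.σ i G‖ * ‖D.σ i P‖ := by rw [map_mul, norm_mul]
        _ ≤ (n * H ^ (n - 1)) * H ^ n := by
            apply mul_le_mul hGi hPi (norm_nonneg _) (by positivity)
        _ = n * H ^ (2 * n - 1) := by
            rw [mul_assoc, ← pow_add]; congr 2; omega
        _ ≤ _ := mul_le_mul_of_nonneg_right (by linarith) (pow_nonneg hH0 _)
    · simp only
      refine ⟨(-1) ^ (n + 2) * (2 ^ (n + 2) * Q ^ n * (X * Y) ^ 2 * P ^ n), ?_⟩
      have e1 : Z * Y * c * (G * P) = (-1) * (2 * Q * (X * Y) * P) := by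
        rw [← hGZ2, hcX]; ring
      rw [e1]
      have e2 : (-1 * (2 * Q * (X * Y) * P)) ^ (n + 2) =
          (-1) ^ (n + 2) * (2 ^ (n + 2) * Q ^ (n + 2) * (X * Y) ^ (n + 2) * P ^ (n + 2)) := by
        rw [mul_pow, mul_pow, mul_pow, mul_pow]
      rw [e2, pow_add Q, pow_add (X * Y), pow_add P]
      ring

end Pool.Agent.N946.GA.G2
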